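import Pool.Agent.Run7.h3.ST.Brg

/-!
# All mixed moments of the traces of Frobenius over all primes, any centre

This is the theorem of helper3 (`MP_32ceeb_nt.PowerTraces`; definitions, lemmas and proofs copied from there), with an
arbitrary centre and for all primes.
-/

set_option autoImplicit false

namespace Run7.h209.ST

open Finset MvPolynomial
open Pool.Agent.Y722.HS (Mon form IsSmooth)
open Run7.h3.ST
open scoped LinearAlgebra.Projectivization Nat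

/-- The number of the points over the field with `p ^ j` elements of the subscheme of `P ^ n` defined by the forms in `S`. -/
noncomputable def points {n : ℕ} (p j : ℕ) (S : Set (MvPolynomial (Fin (n + 1)) ℤ)) : ℕ :=
  open scoped Classical in
  if h : p.Prime then
    haveI : Fact p.Prime := ⟨h⟩
    Nat.card {P : ℙ (GaloisField p j) (Fin (n + 1) → GaloisField p j) // ∀ G ∈ S, aeval P.rep G = 0}
  else 0

/-- The number `(-1) ^ (D - 1) (#V(F_q) - c) / q ^ ((D - 1) / 2)`, `q = p ^ j`, for the intersection `V` of `W` (defined by `S`) and the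
hypersurface `F = 0`. -/
noncomputable def trace {n : ℕ} (S : Set (MvPolynomial (Fin (n + 1)) ℤ)) (F : MvPolynomial (Fin (n + 1)) ℤ) (D : ℕ) (c : ℝ) (p j : ℕ) : ℝ :=
  (-1) ^ (D - 1) * (((points p j (S ∪ {F}) : ℝ) - c) / Real.sqrt p ^ (j * (D - 1)))

/-- The integer vectors `t` with `N i ≤ t i < N i + L i`. -/
noncomputable def box {κ : Type} [Fintype κ] [DecidableEq κ] (N : κ → ℤ) (L : κ → ℕ) : Finset (κ → ℤ) :=
  Fintype.piFinset fun i => Ico (N i) (N i + L i)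

/-- the numbers `z_p` have the average `m` over the primes up to `Y`, up to `Y ^ (-1/4)`, for all `Y ≥ X₀`, `8 Y ^ 3 ≤ T` -/
def Typ (m : ℝ) (X₀ : ℕ) (T : ℝ) (z : ℕ → ℝ) : Prop :=
  ∀ Y : ℕ, X₀ ≤ Y → 8 * (Y : ℝ) ^ 3 ≤ T → |∑ p ∈ Icc 1 Y with p.Prime, (z p - m)| ≤ 4 * (Y : ℝ) ^ ((3 : ℝ) / 4)

/-- all but a share `C X₀ ^ (-1/4)` of the vectors of all boxes -/
def Most {κ : Type} [Fintype κ] [DecidableEq κ] (C : ℝ) (A : ℕ → ℝ → (κ → ℤ) → Prop) : Prop :=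
  ∀ (N : κ → ℤ) (L : κ → ℕ) (T : ℝ), (∀ i, T ≤ L i) → ∀ X₀ : ℕ, 1 ≤ X₀ →
    ({t ∈ box N L | ¬ A X₀ T t} : Set (κ → ℤ)).ncard ≤ C * (X₀ : ℝ) ^ (-((1 : ℝ) / 4)) * ∏ i, (L i : ℝ)

lemma points_eq {n : ℕ} {S : Set (MvPolynomial (Fin (n + 1)) ℤ)} (hS : ∀ G ∈ S, ∃ d, G.IsHomogeneous d) (p : ℕ) [hp : Fact p.Prime] {j : ℕ}
    (hj : 1 ≤ j) : points p j S = (VW (WS S p) j).card := by
  unfold points
  rw [dif_pos hp.out]
  exact pts_WS hS p hj

lemma trace_eq {n : ℕ} {S : Set (MvPolynomial (Fin (n + 1)) ℤ)} (hS : ∀ G ∈ S, ∃ d, G.IsHomogeneous d) (p : ℕ) [hp : Fact p.Prime] {j : ℕ}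
    (hj : 1 ≤ j) {δ : ℕ} (t : Mon n δ → ℤ) (D : ℕ) (b : ℕ → ℝ) :
    trace S (form t) D (b j) p j = (-1) ^ (D - 1) * tau (WS S p) D b j (fun m => (t m : ZMod p)) := by
  unfold trace tau points
  rw [dif_pos hp.out]
  have h1 := pts_sec hS p hj t
  rw [h1]
  unfold sp
  rw [← pow_mul, mul_comm (D - 1) j]

/-- **All moments, all primes, any centre.** -/
theorem moments {Λ : Type} [Fintype Λ] [DecidableEq Λ] (n D δ : Λ → ℕ) (S : ∀ l, Set (MvPolynomial (Fin (n l + 1)) ℤ)) (J : ℕ)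
    (a : Λ → ℕ → ℕ) (C₀ : ℝ) (b : Λ → ℕ → ℕ → ℝ) (hD : ∀ l, 2 ≤ D l) (hS : ∀ l, ∀ G ∈ S l, ∃ d, G.IsHomogeneous d)
    (hW : ∀ l, ∀ p : ℕ, p.Prime → ∀ j ∈ Icc 1 J, |(points p j (S l) : ℝ) - (p : ℝ) ^ (j * D l)| ≤ C₀ * ((p : ℝ) ^ (j * D l) / Real.sqrt p))
    (hb : ∀ l, ∀ p : ℕ, p.Prime → ∀ j ∈ Icc 1 J, |(points p j (S l) : ℝ) / (p : ℝ) ^ j - b l p j| ≤
      C₀ * (Real.sqrt p ^ (j * (D l - 1)) / Real.sqrt p))
    (ha : ∀ l, 2 * ∑ j ∈ Icc 1 J, j * a l j ≤ δ l + 1) :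
    ∃ C : ℝ, 0 ≤ C ∧ Most C fun X₀ T (t : (Σ l, Mon (n l) (δ l)) → ℤ) =>
      Typ (mm (fun l => (-1 : ℝ) ^ (D l - 1)) a J) X₀ T fun p =>
        ∏ l, ∏ j ∈ Icc 1 J, trace (S l) (form fun m => t ⟨l, m⟩) (D l) (b l p j) p j ^ a l j := by
  classical
  have hs : ∀ l : Λ, ((-1 : ℝ) ^ (D l - 1)) ^ 2 = 1 := fun l => by rw [← pow_mul, mul_comm, pow_mul, neg_one_sq, _root_.one_pow]
  have hSz : ∀ l (p : ℕ) [Fact p.Prime], Sz (WS (S l) p) (D l) J |C₀| := by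
    intro l p hp
    refine ⟨stab_WS p, fun e he => ?_⟩
    have h1 := hW l p hp.out e he
    rw [points_eq (hS l) p (mem_Icc.1 he).1, pow_mul] at h1
    refine h1.trans ?_
    unfold ep
    rw [mul_one_div]
    exact mul_le_mul_of_nonneg_right (le_abs_self _) (by positivity)
  obtain ⟨C, hC, hE⟩ := engine (δ := δ) (d := D) (B := J) (fun l p _ => WS (S l) p) b hs a (abs_nonneg C₀) hD hSz (fun l p hp j hj => by
      rw [← points_eq (hS l) p (mem_Icc.1 hj).1]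
      refine (hb l p hp.out j hj).trans ?_
      unfold ep sp
      rw [← pow_mul, mul_comm (D l - 1) j, div_eq_mul_one_div, mul_comm (Real.sqrt (p : ℝ) ^ (j * (D l - 1))) (1 / Real.sqrt p)]
      exact mul_le_mul_of_nonneg_right (le_abs_self _) (by positivity))
    ha (fun _ _ => True) (fun _ _ => 0) (fun _ _ => le_rfl) (fun _ _ h => absurd trivial h) (le_refl (0 : ℝ)) (fun p hp => by
      rw [Q282.CL.av_const, zero_mul]) (ε := 1 / 2) (by norm_num) (by norm_num)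
  refine ⟨C, hC, fun N L T hT X₀ hX₀ => ?_⟩
  obtain ⟨E, hEs, hcard, hgood⟩ := hE (fun _ => 1) (fun _ => by simp) N L T hT X₀ hX₀
  have e1 : -((1 : ℝ) / 2 / 2) = -((1 : ℝ) / 4) := by norm_num
  rw [e1] at hcard
  refine le_trans ?_ hcard
  have hsub : ({t ∈ box N L | ¬ Typ (mm (fun l => (-1 : ℝ) ^ (D l - 1)) a J) X₀ T fun p =>
        ∏ l, ∏ j ∈ Icc 1 J, trace (S l) (form fun m => t ⟨l, m⟩) (D l) (b l p j) p j ^ a l j} : Set ((Σ l, Mon (n l) (δ l)) → ℤ)) ⊆ ↑E := by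
    rintro t ⟨ht, hnt⟩
    by_contra hno
    refine hnt fun Y hXY hYT => ?_
    have h1 := hgood t ht hno 0 Y (Nat.zero_le _) hXY hYT
    have e2 : (1 : ℝ) / 2 + 1 / 2 / 2 = (3 : ℝ) / 4 := by norm_num
    rw [e2] at h1
    refine le_trans (le_of_eq ?_) h1
    congr 1
    have h4 : Icc 1 Y = (Ico 0 Y).image fun i => i + 1 := by
      ext p
      rw [mem_image, mem_Icc]
      constructor
      · rintro ⟨h5, h6⟩
        exact ⟨p - 1, mem_Ico.2 ⟨by omega, by omega⟩, by omega⟩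
      · rintro ⟨i, hi, rfl⟩
        have := mem_Ico.1 hi
        omega
    rw [h4, sum_filter, sum_image (fun x _ y _ hxy => by simpa using hxy)]
    refine sum_congr rfl fun i _ => ?_
    unfold ff
    by_cases hp : (i + 1).Prime
    · rw [if_pos hp, if_pos hp, one_mul]
      have hF : Fact (i + 1).Prime := ⟨hp⟩
      unfold XX
      rw [dif_pos hp, if_pos trivial]
      congr 1
      unfold TT
      refine prod_congr rfl fun l _ => prod_congr rfl fun j hj => ?_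
      have h1 := trace_eq (hS l) (i + 1) (mem_Icc.1 hj).1 (fun m => t ⟨l, m⟩) (D l) (b l (i + 1))
      rw [h1]
      rfl
    · rw [if_neg hp, if_neg hp]
  have h1 := Set.ncard_le_ncard hsub (Finset.finite_toSet _)
  rw [Set.ncard_coe_finset] at h1
  exact_mod_cast h1

end Run7.h209.ST
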