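import Pool.Agent.Q282.CL.Dist
import Pool.Agent.Q177.MM.RemCF

/-!
# Laws of vectors from finitely many mixed moments

A probability law on `ℝ^κ` whose linear forms have moments of slow growth is determined by its mixed moments, and
if sufficiently many mixed moments of an empirical law are sufficiently close to its moments, then the law is close
on every set with null boundary.
-/

set_option autoImplicit false

namespace Run7.h209.ST

open MeasureTheory ProbabilityTheory Finset Filter Q282.CL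
open scoped Topology

section char

variable {E : Type} [NormedAddCommGroup E] [InnerProductSpace ℝ E] [MeasurableSpace E] [BorelSpace E]
  [SecondCountableTopology E]

lemma tay (μ : Measure E) [IsProbabilityMeasure μ] (u : E) (m : ℕ)
    (hμ : ∀ k ≤ 2 * m, Integrable (fun x : E => (inner ℝ x u) ^ k) μ) :
    ‖charFun μ u - ∑ k ∈ range (2 * m), Complex.I ^ k / (k.factorial : ℂ) * ((∫ x, (inner ℝ x u) ^ k ∂μ : ℝ) : ℂ)‖ ≤
      (∫ x, (inner ℝ x u) ^ (2 * m) ∂μ) / ((2 * m).factorial : ℝ) := by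
  have h1 : ∑ k ∈ range (2 * m), Complex.I ^ k / (k.factorial : ℂ) * ((∫ x, (inner ℝ x u) ^ k ∂μ : ℝ) : ℂ) =
      ∫ x, ∑ k ∈ range (2 * m), (((inner ℝ x u : ℝ) : ℂ) * Complex.I) ^ k / (k.factorial : ℂ) ∂μ := by
    rw [integral_finsetSum]
    · refine sum_congr rfl fun k hk => ?_
      rw [← integral_complex_ofReal, ← integral_const_mul]
      refine integral_congr_ae (Eventually.of_forall fun x => ?_)
      simp only
      push_cast
      ring
    · intro k hk
      have h2 : Integrable (fun x : E => (((inner ℝ x u) ^ k : ℝ) : ℂ)) μ := (hμ k (mem_range.1 hk).le).ofReal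
      refine (h2.const_mul (Complex.I ^ k / (k.factorial : ℂ))).congr (Eventually.of_forall fun x => ?_)
      simp only
      push_cast
      ring
  have hi : Integrable (fun x : E => ∑ k ∈ range (2 * m), (((inner ℝ x u : ℝ) : ℂ) * Complex.I) ^ k / (k.factorial : ℂ)) μ := by
    refine integrable_finsetSum _ fun k hk => ?_
    have h2 : Integrable (fun x : E => (((inner ℝ x u) ^ k : ℝ) : ℂ)) μ := (hμ k (mem_range.1 hk).le).ofReal
    refine (h2.const_mul (Complex.I ^ k / (k.factorial : ℂ))).congr (Eventually.of_forall fun x => ?_)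
    simp only
    push_cast
    ring
  have he : Integrable (fun x : E => Complex.exp (((inner ℝ x u : ℝ) : ℂ) * Complex.I)) μ := by
    refine Integrable.of_bound (by fun_prop) 1 (Eventually.of_forall fun x => ?_)
    rw [Complex.norm_exp_ofReal_mul_I]
  rw [h1, charFun_apply, ← integral_sub he hi, ← integral_div]
  refine (norm_integral_le_integral_norm _).trans (integral_mono_of_nonneg (Eventually.of_forall fun x => norm_nonneg _)
    ((hμ (2 * m) le_rfl).div_const _) (Eventually.of_forall fun x => ?_))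
  simp only
  have h2 := Q177.MM.rem (((inner ℝ x u : ℝ) : ℂ) * Complex.I) (2 * m) (by simp)
  refine h2.trans (le_of_eq ?_)
  rw [norm_mul, Complex.norm_I, mul_one, Complex.norm_real, Real.norm_eq_abs, pow_mul, sq_abs, ← pow_mul]

lemma chr_near (μ ν : Measure E) [IsProbabilityMeasure μ] [IsProbabilityMeasure ν] (u : E) (m : ℕ) {η : ℝ}
    (hμ : ∀ k ≤ 2 * m, Integrable (fun x : E => (inner ℝ x u) ^ k) μ)
    (hν : ∀ k ≤ 2 * m, Integrable (fun x : E => (inner ℝ x u) ^ k) ν)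
    (h : ∀ k ≤ 2 * m, |∫ x, (inner ℝ x u) ^ k ∂μ - ∫ x, (inner ℝ x u) ^ k ∂ν| ≤ η) :
    ‖charFun μ u - charFun ν u‖ ≤ (2 * m + 1) * η + 2 * ((∫ x, (inner ℝ x u) ^ (2 * m) ∂ν) / ((2 * m).factorial : ℝ)) := by
  have hη : 0 ≤ η := (abs_nonneg _).trans (h 0 (by omega))
  have h1 := tay μ u m hμ
  have h2 := tay ν u m hν
  have h3 : ‖∑ k ∈ range (2 * m), Complex.I ^ k / (k.factorial : ℂ) * ((∫ x, (inner ℝ x u) ^ k ∂μ : ℝ) : ℂ) -
      ∑ k ∈ range (2 * m), Complex.I ^ k / (k.factorial : ℂ) * ((∫ x, (inner ℝ x u) ^ k ∂ν : ℝ) : ℂ)‖ ≤ 2 * m * η := by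
    rw [← sum_sub_distrib]
    refine (norm_sum_le _ _).trans ?_
    refine (sum_le_card_nsmul _ _ η fun k hk => ?_).trans (le_of_eq ?_)
    · rw [← mul_sub, norm_mul, norm_div, norm_pow, Complex.norm_I, one_pow, Complex.norm_natCast, ← Complex.ofReal_sub,
        Complex.norm_real, Real.norm_eq_abs]
      have h4 := h k (mem_range.1 hk).le
      have h5 : (1 : ℝ) / (k.factorial : ℝ) ≤ 1 := by
        rw [div_le_one (by exact_mod_cast k.factorial_pos)]
        exact_mod_cast k.factorial_pos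
      calc 1 / (k.factorial : ℝ) * |∫ x, (inner ℝ x u) ^ k ∂μ - ∫ x, (inner ℝ x u) ^ k ∂ν| ≤ 1 * η :=
            mul_le_mul h5 h4 (abs_nonneg _) zero_le_one
        _ = η := one_mul _
    · rw [card_range, nsmul_eq_mul]
      push_cast
      ring
  have h4 : (∫ x, (inner ℝ x u) ^ (2 * m) ∂μ) / ((2 * m).factorial : ℝ) ≤
      (∫ x, (inner ℝ x u) ^ (2 * m) ∂ν) / ((2 * m).factorial : ℝ) + η := by
    have h5 : (0 : ℝ) < ((2 * m).factorial : ℝ) := by exact_mod_cast Nat.factorial_pos _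
    have h6 : (1 : ℝ) ≤ ((2 * m).factorial : ℝ) := by exact_mod_cast Nat.factorial_pos _
    have h7 := (abs_le.1 (h (2 * m) le_rfl)).2
    rw [div_le_iff₀ h5, add_mul, div_mul_cancel₀ _ h5.ne']
    nlinarith
  have e : charFun μ u - charFun ν u = (charFun μ u - ∑ k ∈ range (2 * m), Complex.I ^ k / (k.factorial : ℂ) * ((∫ x, (inner ℝ x u) ^ k ∂μ : ℝ) : ℂ)) +
      (∑ k ∈ range (2 * m), Complex.I ^ k / (k.factorial : ℂ) * ((∫ x, (inner ℝ x u) ^ k ∂μ : ℝ) : ℂ) -
        ∑ k ∈ range (2 * m), Complex.I ^ k / (k.factorial : ℂ) * ((∫ x, (inner ℝ x u) ^ k ∂ν : ℝ) : ℂ)) -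
      (charFun ν u - ∑ k ∈ range (2 * m), Complex.I ^ k / (k.factorial : ℂ) * ((∫ x, (inner ℝ x u) ^ k ∂ν : ℝ) : ℂ)) := by ring
  rw [e]
  refine (norm_sub_le _ _).trans ?_
  have h8 := norm_add_le (charFun μ u - ∑ k ∈ range (2 * m), Complex.I ^ k / (k.factorial : ℂ) * ((∫ x, (inner ℝ x u) ^ k ∂μ : ℝ) : ℂ))
      (∑ k ∈ range (2 * m), Complex.I ^ k / (k.factorial : ℂ) * ((∫ x, (inner ℝ x u) ^ k ∂μ : ℝ) : ℂ) -
        ∑ k ∈ range (2 * m), Complex.I ^ k / (k.factorial : ℂ) * ((∫ x, (inner ℝ x u) ^ k ∂ν : ℝ) : ℂ))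
  linarith

end char

section mom

variable {κ : Type} [Fintype κ]

/-- the polynomial `(∑ u_i X_i)^k` -/
noncomputable def lp (u : κ → ℝ) (k : ℕ) : MvPolynomial κ ℝ := (∑ i, MvPolynomial.C (u i) * MvPolynomial.X i) ^ k

lemma lp_eval (u x : κ → ℝ) (k : ℕ) : MvPolynomial.eval x (lp u k) = (∑ i, x i * u i) ^ k := by
  unfold lp
  rw [map_pow, map_sum]
  congr 1
  refine sum_congr rfl fun i _ => ?_
  simp [mul_comm]

lemma lp_deg (u : κ → ℝ) (k : ℕ) {d : κ →₀ ℕ} (hd : d ∈ (lp u k).support) : ∑ i, d i ≤ k := by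
  have h1 : (lp u k).totalDegree ≤ k := by
    unfold lp
    refine (MvPolynomial.totalDegree_pow _ _).trans ?_
    have h2 : (∑ i, MvPolynomial.C (u i) * MvPolynomial.X i : MvPolynomial κ ℝ).totalDegree ≤ 1 := by
      refine MvPolynomial.totalDegree_finsetSum_le fun i _ => ?_
      refine (MvPolynomial.totalDegree_mul _ _).trans ?_
      rw [MvPolynomial.totalDegree_C, MvPolynomial.totalDegree_X]
    nlinarith
  have h2 := (MvPolynomial.le_totalDegree hd).trans h1
  rwa [Finsupp.sum_fintype _ _ (fun _ => rfl)] at h2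

/-- the sum of the absolute values of the coefficients -/
noncomputable def cf (u : κ → ℝ) (k : ℕ) : ℝ := ∑ d ∈ (lp u k).support, |(lp u k).coeff d|

lemma cf_nonneg (u : κ → ℝ) (k : ℕ) : 0 ≤ cf u k := sum_nonneg fun _ _ => abs_nonneg _

lemma lp_sum (u x : κ → ℝ) (k : ℕ) : (∑ i, x i * u i) ^ k = ∑ d ∈ (lp u k).support, (lp u k).coeff d * ∏ i, x i ^ d i := by
  rw [← lp_eval, MvPolynomial.eval_eq']

/-- a probability law on the vectors, with its mixed moments `M` and small moments of the linear forms -/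
structure Law (κ : Type) [Fintype κ] where
  ν : ProbabilityMeasure (EuclideanSpace ℝ κ)
  M : (κ → ℕ) → ℝ
  int : ∀ a : κ → ℕ, Integrable (fun x : EuclideanSpace ℝ κ => ∏ i, x i ^ a i) (ν : Measure (EuclideanSpace ℝ κ))
  mom : ∀ a : κ → ℕ, ∫ x : EuclideanSpace ℝ κ, ∏ i, x i ^ a i ∂(ν : Measure (EuclideanSpace ℝ κ)) = M a
  det : ∀ u : EuclideanSpace ℝ κ, Tendsto (fun m : ℕ => (∫ x : EuclideanSpace ℝ κ, (inner ℝ x u) ^ (2 * m) ∂(ν : Measure (EuclideanSpace ℝ κ))) /
    ((2 * m).factorial : ℝ)) atTop (𝓝 0)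

lemma inner_eq (x u : EuclideanSpace ℝ κ) : inner ℝ x u = ∑ i, x i * u i := by
  rw [PiLp.inner_apply]
  refine sum_congr rfl fun i _ => ?_
  simp [mul_comm]

lemma Law.int_pow (L : Law κ) (u : EuclideanSpace ℝ κ) (k : ℕ) :
    Integrable (fun x : EuclideanSpace ℝ κ => (inner ℝ x u) ^ k) (L.ν : Measure (EuclideanSpace ℝ κ)) := by
  have h1 : (fun x : EuclideanSpace ℝ κ => (inner ℝ x u : ℝ) ^ k) =
      fun x => ∑ d ∈ (lp u k).support, (lp u k).coeff d * ∏ i, x i ^ d i := by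
    funext x
    rw [inner_eq, lp_sum]
  rw [h1]
  exact integrable_finsetSum _ fun d _ => (L.int d).const_mul _

lemma Law.mom_pow (L : Law κ) (u : EuclideanSpace ℝ κ) (k : ℕ) :
    ∫ x : EuclideanSpace ℝ κ, (inner ℝ x u) ^ k ∂(L.ν : Measure (EuclideanSpace ℝ κ)) = ∑ d ∈ (lp u k).support, (lp u k).coeff d * L.M d := by
  have h1 : (fun x : EuclideanSpace ℝ κ => (inner ℝ x u : ℝ) ^ k) =
      fun x => ∑ d ∈ (lp u k).support, (lp u k).coeff d * ∏ i, x i ^ d i := by
    funext x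
    rw [inner_eq, lp_sum]
  rw [h1]
  refine (integral_finsetSum (lp u k).support fun (d : κ →₀ ℕ) _ => (L.int ⇑d).const_mul ((lp u k).coeff d)).trans ?_
  refine sum_congr rfl fun d _ => ?_
  rw [integral_const_mul, L.mom]

/-- finitely many vectors whose mixed moments of order at most `D` are near those of the law -/
def Close (L : Law κ) (D : ℕ) (P : Finset ℕ) (z : ℕ → κ → ℝ) : Prop :=
  ∀ a : κ → ℕ, ∑ i, a i ≤ D → |(∑ p ∈ P, ∏ i, z p i ^ a i) / P.card - L.M a| ≤ 1 / (D + 1)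

open scoped Classical in
/-- **The laws from the moments.** -/
theorem Law.near (L : Law κ) {S : Set (κ → ℝ)} (hSm : MeasurableSet S)
    (hS : (L.ν : Measure (EuclideanSpace ℝ κ)) (frontier ((WithLp.ofLp : EuclideanSpace ℝ κ → κ → ℝ) ⁻¹' S)) = 0) {ε : ℝ} (hε : 0 < ε) :
    ∃ D : ℕ, ∀ (P : Finset ℕ) (z : ℕ → κ → ℝ), P.Nonempty → Close L D P z →
      |({p ∈ P | z p ∈ S}.card : ℝ) / P.card - ((L.ν : Measure (EuclideanSpace ℝ κ)) ((WithLp.ofLp : EuclideanSpace ℝ κ → κ → ℝ) ⁻¹' S)).toReal| ≤ ε := by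
  classical
  let β : Type := {b : Finset ℕ × (ℕ → κ → ℝ) × ℕ // b.1.Nonempty ∧ Close L b.2.2 b.1 b.2.1}
  have hne : ∀ b : β, Nonempty ↥b.1.1 := fun b => ⟨⟨_, b.2.1.choose_spec⟩⟩
  let μ : β → ProbabilityMeasure (EuclideanSpace ℝ κ) := fun b =>
    haveI := hne b
    lw (fun p : ↥b.1.1 => (WithLp.toLp 2 (b.1.2.1 p) : EuclideanSpace ℝ κ))
  have hμi : ∀ (b : β) (f : EuclideanSpace ℝ κ → ℝ), Integrable f (μ b : Measure (EuclideanSpace ℝ κ)) := by
    intro b f
    have := hne b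
    show Integrable f (lwm _)
    unfold lwm
    refine Integrable.smul_measure ?_ (ENNReal.inv_ne_top.2 (by simpa using b.2.1.ne_empty))
    rw [integrable_finsetSum_measure]
    exact fun p _ => integrable_dirac (by simp)
  have hμ2 : ∀ (b : β) (f : EuclideanSpace ℝ κ → ℝ), ∫ x, f x ∂(μ b : Measure (EuclideanSpace ℝ κ)) =
      (∑ p ∈ b.1.1, f (WithLp.toLp 2 (b.1.2.1 p))) / b.1.1.card := by
    intro b f
    have := hne b
    show ∫ x, f x ∂(lwm _) = _
    unfold lwm
    rw [integral_smul_measure, integral_finsetSum_measure (fun p _ => integrable_dirac (by simp))]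
    simp only [integral_dirac]
    rw [ENNReal.toReal_inv, ENNReal.toReal_natCast, smul_eq_mul, Fintype.card_coe, div_eq_inv_mul,
      Finset.sum_coe_sort b.1.1 (fun p => f (WithLp.toLp 2 (b.1.2.1 p)))]
  obtain ⟨X₁, hX₁⟩ := levy (fun b : β => b.1.2.2) μ L.ν (fun u δ hδ => by
    have h1 := L.det u
    rw [Metric.tendsto_atTop] at h1
    obtain ⟨m, hm⟩ := h1 (δ / 4) (by positivity)
    have hm := hm m le_rfl
    rw [Real.dist_eq, sub_zero] at hm
    have hm' := (le_abs_self _).trans hm.le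
    have hK : 0 ≤ ∑ k ∈ range (2 * m + 1), cf u k := sum_nonneg fun k _ => cf_nonneg _ _
    obtain ⟨K, hKe⟩ : ∃ K : ℝ, K = ∑ k ∈ range (2 * m + 1), cf u k := ⟨_, rfl⟩
    rw [← hKe] at hK
    obtain ⟨N, hN⟩ := exists_nat_gt ((2 * m + 1) * K / (δ / 2))
    refine ⟨max N (2 * m), fun b hb => ?_⟩
    obtain ⟨⟨P, z, D⟩, hP, hc⟩ := b
    have hb' : max N (2 * m) ≤ D := hb
    have hDN : N ≤ D := (le_max_left _ _).trans hb'
    have hDm : 2 * m ≤ D := (le_max_right _ _).trans hb'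
    have hD0 : (0 : ℝ) < (D : ℝ) + 1 := by positivity
    have h2 := chr_near (E := EuclideanSpace ℝ κ) (μ ⟨⟨P, z, D⟩, hP, hc⟩ : Measure (EuclideanSpace ℝ κ)) (L.ν : Measure (EuclideanSpace ℝ κ)) u m
      (η := K / (D + 1)) (fun k _ => hμi _ _) (fun k _ => L.int_pow u k) (fun k hk => by
        rw [hμ2, L.mom_pow]
        simp only
        have h3 : (∑ p ∈ P, (inner ℝ (WithLp.toLp 2 (z p) : EuclideanSpace ℝ κ) u) ^ k) / (P.card : ℝ) =
            ∑ d ∈ (lp u k).support, (lp u k).coeff d * ((∑ p ∈ P, ∏ i, z p i ^ d i) / P.card) := by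
          simp only [mul_div_assoc', mul_sum]
          rw [← sum_div, sum_comm]
          congr 1
          refine sum_congr rfl fun p _ => ?_
          rw [inner_eq, lp_sum]
        rw [h3, ← sum_sub_distrib]
        refine (abs_sum_le_sum_abs _ _).trans ?_
        have h4 : ∀ d ∈ (lp u k).support, |(lp u k).coeff d * ((∑ p ∈ P, ∏ i, z p i ^ d i) / P.card) - (lp u k).coeff d * L.M d| ≤
            |(lp u k).coeff d| * (1 / (D + 1)) := by
          intro d hd
          rw [← mul_sub, abs_mul]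
          refine mul_le_mul_of_nonneg_left (hc d ?_) (abs_nonneg _)
          exact (lp_deg u k hd).trans (hk.trans hDm)
        refine (sum_le_sum h4).trans ?_
        rw [← sum_mul]
        have h5 : cf u k ≤ K := by
          rw [hKe]
          exact single_le_sum (f := fun k => cf u k) (fun k _ => cf_nonneg _ _) (mem_range.2 (by omega))
        calc (∑ d ∈ (lp u k).support, |(lp u k).coeff d|) * (1 / ((D : ℝ) + 1)) ≤ K * (1 / ((D : ℝ) + 1)) :=
              mul_le_mul_of_nonneg_right h5 (by positivity)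
          _ = K / (D + 1) := by ring)
    refine h2.trans ?_
    have h6 : (2 * (m : ℝ) + 1) * (K / (D + 1)) ≤ δ / 2 := by
      rw [← mul_div_assoc, div_le_iff₀ hD0]
      have h7 : (2 * (m : ℝ) + 1) * K / (δ / 2) < D + 1 := by
        have : (N : ℝ) ≤ D := by exact_mod_cast hDN
        linarith
      rw [div_lt_iff₀ (by positivity)] at h7
      linarith
    linarith) hS hε
  refine ⟨X₁, fun P z hP hc => ?_⟩
  have h1 := hX₁ ⟨⟨P, z, X₁⟩, hP, hc⟩ le_rfl
  have hSm' : MeasurableSet ((WithLp.ofLp : EuclideanSpace ℝ κ → κ → ℝ) ⁻¹' S) := by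
    refine MeasurableSet.preimage hSm ?_
    exact (WithLp.measurable_ofLp 2 (κ → ℝ))
  have h2 : ((μ ⟨⟨P, z, X₁⟩, hP, hc⟩ : Measure (EuclideanSpace ℝ κ)) ((WithLp.ofLp : EuclideanSpace ℝ κ → κ → ℝ) ⁻¹' S)).toReal =
      ({p ∈ P | z p ∈ S}.card : ℝ) / P.card := by
    have h3 := hμ2 ⟨⟨P, z, X₁⟩, hP, hc⟩ (((WithLp.ofLp : EuclideanSpace ℝ κ → κ → ℝ) ⁻¹' S).indicator 1)
    rw [integral_indicator_one hSm'] at h3
    rw [← measureReal_def, h3]
    simp only
    congr 1
    rw [card_filter]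
    push_cast
    refine sum_congr rfl fun p _ => ?_
    simp only [Set.indicator_apply, Set.mem_preimage, Pi.one_apply]
  rw [h2] at h1
  exact h1

end mom

end Run7.h209.ST
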