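import Pool.Agent.Run7.h209.ST.Det
import Pool.Agent.Run7.h3.ST.One
import Pool.Agent.R320.KL.Gmo

/-!
# The law of the traces: independent normal variables
-/

set_option autoImplicit false

namespace Run7.h209.ST

open MeasureTheory ProbabilityTheory Finset Filter Q282.CL
open scoped Topology NNReal ENNReal

section gauss

variable {κ : Type} [Fintype κ] (c : κ → ℝ) (v : κ → ℝ≥0)

/-- the product of normal laws -/
noncomputable def nrm : Measure (κ → ℝ) := Measure.pi fun i => gaussianReal (c i) (v i)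

instance : IsProbabilityMeasure (nrm c v) := by unfold nrm; infer_instance

/-- the same law on the euclidean space -/
noncomputable def nrmE : ProbabilityMeasure (EuclideanSpace ℝ κ) :=
  ⟨(nrm c v).map (WithLp.toLp 2), Measure.isProbabilityMeasure_map (WithLp.measurable_toLp 2 _).aemeasurable⟩

lemma int_pow_gau (m : ℝ) (w : ℝ≥0) (a : ℕ) : Integrable (fun x : ℝ => x ^ a) (gaussianReal m w) := by
  have h1 : MemLp id (a : ℝ≥0∞) (gaussianReal m w) := memLp_id_gaussianReal (a : ℝ≥0)
  have h2 := h1.integrable_norm_pow'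
  refine h2.mono' (by fun_prop) (Eventually.of_forall fun x => ?_)
  rw [norm_pow]
  rfl

lemma int_prod (a : κ → ℕ) : Integrable (fun x : κ → ℝ => ∏ i, x i ^ a i) (nrm c v) :=
  Integrable.fintype_prod (f := fun i (x : ℝ) => x ^ a i) fun i => int_pow_gau _ _ _

lemma mom_prod (a : κ → ℕ) : ∫ x : κ → ℝ, ∏ i, x i ^ a i ∂(nrm c v) = ∏ i, ∫ x, x ^ a i ∂(gaussianReal (c i) (v i)) := by
  unfold nrm
  exact integral_fintype_prod_eq_prod (fun i (x : ℝ) => x ^ a i)

lemma integrable_E {f : EuclideanSpace ℝ κ → ℝ} (hf : Measurable f) (h : Integrable (fun x : κ → ℝ => f (WithLp.toLp 2 x)) (nrm c v)) :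
    Integrable f (nrmE c v : Measure (EuclideanSpace ℝ κ)) := by
  show Integrable f ((nrm c v).map (WithLp.toLp 2))
  rw [integrable_map_measure hf.aestronglyMeasurable (WithLp.measurable_toLp 2 _).aemeasurable]
  exact h

lemma integral_E {f : EuclideanSpace ℝ κ → ℝ} (hf : Measurable f) :
    ∫ x, f x ∂(nrmE c v : Measure (EuclideanSpace ℝ κ)) = ∫ x : κ → ℝ, f (WithLp.toLp 2 x) ∂(nrm c v) := by
  show ∫ x, f x ∂((nrm c v).map (WithLp.toLp 2)) = _
  rw [integral_map (WithLp.measurable_toLp 2 _).aemeasurable hf.aestronglyMeasurable]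

lemma int_exp (u : κ → ℝ) : Integrable (fun x : κ → ℝ => Real.exp (∑ i, x i * u i)) (nrm c v) := by
  have h1 : (fun x : κ → ℝ => Real.exp (∑ i, x i * u i)) = fun x => ∏ i, Real.exp (u i * x i) := by
    funext x
    rw [Real.exp_sum]
    exact prod_congr rfl fun i _ => by rw [mul_comm]
  rw [h1]
  exact Integrable.fintype_prod (f := fun i (x : ℝ) => Real.exp (u i * x)) fun i => integrable_exp_mul_gaussianReal (u i)

lemma int_exp_abs (u : κ → ℝ) : Integrable (fun x : κ → ℝ => Real.exp |∑ i, x i * u i|) (nrm c v) := by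
  have h1 := (int_exp c v u).add (int_exp c v (fun i => -u i))
  have hc : Continuous fun x : κ → ℝ => Real.exp |∑ i, x i * u i| := by fun_prop
  refine h1.mono' hc.aestronglyMeasurable (Eventually.of_forall fun x => ?_)
  have h2 : ∑ i, x i * -u i = -∑ i, x i * u i := by
    rw [← sum_neg_distrib]
    exact sum_congr rfl fun i _ => by ring
  show ‖Real.exp |∑ i, x i * u i|‖ ≤ Real.exp (∑ i, x i * u i) + Real.exp (∑ i, x i * -u i)
  rw [h2, Real.norm_eq_abs, abs_of_pos (Real.exp_pos _)]
  rcases le_total 0 (∑ i, x i * u i) with h | h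
  · rw [abs_of_nonneg h]
    have := Real.exp_pos (-∑ i, x i * u i)
    linarith
  · rw [abs_of_nonpos h]
    have := Real.exp_pos (∑ i, x i * u i)
    linarith

lemma det_pi (u : κ → ℝ) : Tendsto (fun m : ℕ => (∫ x : κ → ℝ, (∑ i, x i * u i) ^ (2 * m) ∂(nrm c v)) / ((2 * m).factorial : ℝ))
    atTop (𝓝 0) := by
  have h1 : Tendsto (fun m : ℕ => ∫ x : κ → ℝ, (∑ i, x i * u i) ^ (2 * m) / ((2 * m).factorial : ℝ) ∂(nrm c v)) atTop
      (𝓝 (∫ _ : κ → ℝ, (0 : ℝ) ∂(nrm c v))) := by
    refine tendsto_integral_of_dominated_convergence (fun x => Real.exp |∑ i, x i * u i|) (fun m => (by fun_prop : Continuous fun x : κ → ℝ => (∑ i, x i * u i) ^ (2 * m) / ((2 * m).factorial : ℝ)).aestronglyMeasurable)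
      (int_exp_abs c v u)
      (fun m => Eventually.of_forall fun x => ?_) (Eventually.of_forall fun x => ?_)
    · rw [norm_div, norm_pow, Real.norm_eq_abs, Real.norm_natCast]
      exact Real.pow_div_factorial_le_exp _ (abs_nonneg _) _
    · have h2 := FloorSemiring.tendsto_pow_div_factorial_atTop (∑ i, x i * u i)
      exact h2.comp (tendsto_id.const_mul_atTop' (by norm_num : 0 < 2))
  simp only [integral_zero, integral_div] at h1
  exact h1

/-- the law of independent normal variables, with its moments -/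
noncomputable def nlaw : Law κ where
  ν := nrmE c v
  M := fun a => ∏ i, ∫ x, x ^ a i ∂(gaussianReal (c i) (v i))
  int := fun a => integrable_E c v (by fun_prop) (int_prod c v a)
  mom := fun a => by
    rw [integral_E c v (by fun_prop)]
    exact mom_prod c v a
  det := fun u => by
    have h1 := det_pi c v u.ofLp
    refine h1.congr fun m => ?_
    rw [integral_E c v (by fun_prop)]
    congr 1
    refine integral_congr_ae (Eventually.of_forall fun x => ?_)
    simp only
    rw [inner_eq]

lemma meas_E {S : Set (κ → ℝ)} (hS : MeasurableSet S) :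
    (nrmE c v : Measure (EuclideanSpace ℝ κ)) ((WithLp.ofLp : EuclideanSpace ℝ κ → κ → ℝ) ⁻¹' S) = nrm c v S := by
  show ((nrm c v).map (WithLp.toLp 2)) _ = _
  rw [Measure.map_apply (WithLp.measurable_toLp 2 _) (hS.preimage (WithLp.measurable_ofLp 2 _))]
  rfl

lemma frontier_E (S : Set (κ → ℝ)) :
    (nrmE c v : Measure (EuclideanSpace ℝ κ)) (frontier ((WithLp.ofLp : EuclideanSpace ℝ κ → κ → ℝ) ⁻¹' S)) = nrm c v (frontier S) := by
  have h1 : frontier ((WithLp.ofLp : EuclideanSpace ℝ κ → κ → ℝ) ⁻¹' S) = (WithLp.ofLp : EuclideanSpace ℝ κ → κ → ℝ) ⁻¹' (frontier S) := by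
    have h2 := (PiLp.homeomorph 2 (fun _ : κ => ℝ)).preimage_frontier S
    exact h2.symm
  rw [h1, meas_E c v isClosed_frontier.measurableSet]

end gauss

end Run7.h209.ST
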