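import Pool.Agent.Run7.h209.ST.Base
import Pool.Agent.Run7.h209.ST.Gau

/-!
# The laws of the traces of Frobenius for almost all sections and hypersurfaces of large degree
-/

set_option autoImplicit false

namespace Run7.h209.ST

open MeasureTheory ProbabilityTheory Finset Filter
open Pool.Agent.Y722.HS (Mon form)
open Run7.h3.ST (mm mj eta)
open scoped Topology NNReal ENNReal

/-- the primes up to `Y` -/
def pr (Y : ℕ) : Finset ℕ := {p ∈ Icc 1 Y | p.Prime}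

lemma pr_card (Y : ℕ) : (pr Y).card = Nat.primeCounting Y := by
  unfold pr
  rw [← Nat.primesLE_card_eq_primeCounting]
  congr 1
  ext p
  rw [mem_filter, mem_Icc, Nat.mem_primesLE]
  constructor
  · rintro ⟨⟨h1, h2⟩, h3⟩
    exact ⟨h2, h3⟩
  · rintro ⟨h2, h3⟩
    exact ⟨⟨h3.one_lt.le, h2⟩, h3⟩

lemma pi_low (K : ℝ) : ∃ Y₀ : ℕ, 2 ≤ Y₀ ∧ ∀ Y : ℕ, Y₀ ≤ Y → K * (Y : ℝ) ^ ((3 : ℝ) / 4) ≤ (pr Y).card := by
  have h1 : Tendsto (fun x : ℝ => Real.log x / x ^ ((1 : ℝ) / 4)) atTop (𝓝 0) := (isLittleO_log_rpow_atTop (by norm_num)).tendsto_div_nhds_zero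
  have h2 : ∀ᶠ x : ℝ in atTop, Real.log x / x ^ ((1 : ℝ) / 4) < 1 / (4 * (|K| + 1)) := h1.eventually_lt_const (by positivity)
  obtain ⟨x₀, hx₀⟩ := eventually_atTop.1 h2
  refine ⟨max 64 ⌈x₀⌉₊, (by norm_num : 2 ≤ 64).trans (le_max_left _ _), fun Y hY => ?_⟩
  have hY1 : 64 ≤ Y := (le_max_left _ _).trans hY
  have hY2 : x₀ ≤ Y := (Nat.le_ceil _).trans (by exact_mod_cast (le_max_right _ _).trans hY)
  have hYr : (64 : ℝ) ≤ Y := by exact_mod_cast hY1
  have hY0 : (0 : ℝ) < Y := by linarith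
  have h3 := hx₀ Y hY2
  have h4 := (Chebyshev.psi_ge Y).trans (Chebyshev.psi_le_primeCounting_mul_log Y)
  rw [← pr_card] at h4
  have hlog : 0 < Real.log Y := Real.log_pos (by linarith)
  have hlog1 : Real.log ((Y : ℝ) + 1) ≤ (Y : ℝ) / 4 := by
    have h5 : Real.log ((Y : ℝ) + 1) = 2 * Real.log (Real.sqrt (Y + 1)) := by
      rw [Real.log_sqrt (by linarith)]
      ring
    have h6 := Real.log_le_sub_one_of_pos (Real.sqrt_pos.2 (by linarith : (0 : ℝ) < Y + 1))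
    have h8 : Real.sqrt ((Y : ℝ) + 1) ≤ (Y : ℝ) / 8 + 1 := by
      rw [Real.sqrt_le_left (by linarith)]
      nlinarith
    linarith
  have hlog2 : (0.6931 : ℝ) < Real.log 2 := by have := Real.log_two_gt_d9; linarith
  have h5 : (Y : ℝ) / 4 ≤ (pr Y).card * Real.log Y := by nlinarith
  have hq : 0 < (Y : ℝ) ^ ((1 : ℝ) / 4) := Real.rpow_pos_of_pos hY0 _
  have h6 : Real.log Y * (4 * (|K| + 1)) < (Y : ℝ) ^ ((1 : ℝ) / 4) := by
    rw [div_lt_div_iff₀ hq (by positivity)] at h3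
    linarith
  have h7 : (Y : ℝ) = (Y : ℝ) ^ ((3 : ℝ) / 4) * (Y : ℝ) ^ ((1 : ℝ) / 4) := by
    rw [← Real.rpow_add hY0]
    norm_num
  have h8 : 0 < (Y : ℝ) ^ ((3 : ℝ) / 4) := Real.rpow_pos_of_pos hY0 _
  have h9 : K * (Y : ℝ) ^ ((3 : ℝ) / 4) * Real.log Y ≤ (pr Y).card * Real.log Y := by
    have h10 : K * Real.log Y ≤ (Y : ℝ) ^ ((1 : ℝ) / 4) / 4 := by
      have := le_abs_self K
      nlinarith
    calc K * (Y : ℝ) ^ ((3 : ℝ) / 4) * Real.log Y = (Y : ℝ) ^ ((3 : ℝ) / 4) * (K * Real.log Y) := by ring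
      _ ≤ (Y : ℝ) ^ ((3 : ℝ) / 4) * ((Y : ℝ) ^ ((1 : ℝ) / 4) / 4) := mul_le_mul_of_nonneg_left h10 h8.le
      _ = (Y : ℝ) / 4 := by rw [← mul_div_assoc, ← h7]
      _ ≤ _ := h5
  exact le_of_mul_le_mul_right h9 hlog

section exps

variable {Λ : Type} [Fintype Λ] (J : ℕ)

/-- the exponents as a function of the index `j ≥ 1` -/
def ex (c : Λ × Fin J → ℕ) (l : Λ) (j : ℕ) : ℕ := if h : j - 1 < J then c (l, ⟨j - 1, h⟩) else 0

lemma prod_Icc (f : ℕ → ℝ) : ∏ j ∈ Icc 1 J, f j = ∏ i : Fin J, f (i + 1) := by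
  rw [Fin.prod_univ_eq_prod_range (fun i => f (i + 1)) J]
  have h1 : Icc 1 J = (range J).image fun i => i + 1 := by
    ext j
    rw [mem_Icc, mem_image]
    constructor
    · rintro ⟨h1, h2⟩
      exact ⟨j - 1, mem_range.2 (by omega), by omega⟩
    · rintro ⟨i, hi, rfl⟩
      have := mem_range.1 hi
      omega
  rw [h1, prod_image (fun x _ y _ hxy => by simpa using hxy)]

lemma sum_Icc (f : ℕ → ℕ) : ∑ j ∈ Icc 1 J, f j = ∑ i : Fin J, f (i + 1) := by
  rw [Fin.sum_univ_eq_sum_range (fun i => f (i + 1)) J]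
  have h1 : Icc 1 J = (range J).image fun i => i + 1 := by
    ext j
    rw [mem_Icc, mem_image]
    constructor
    · rintro ⟨h1, h2⟩
      exact ⟨j - 1, mem_range.2 (by omega), by omega⟩
    · rintro ⟨i, hi, rfl⟩
      have := mem_range.1 hi
      omega
  rw [h1, sum_image (fun x _ y _ hxy => by simpa using hxy)]

omit [Fintype Λ] in
lemma ex_fin (c : Λ × Fin J → ℕ) (l : Λ) (i : Fin J) : ex J c l (i + 1) = c (l, i) := by
  unfold ex
  rw [dif_pos (by have := i.2; omega)]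
  congr 2

lemma prod_ex (c : Λ × Fin J → ℕ) (x : Λ → ℕ → ℝ) : ∏ l, ∏ j ∈ Icc 1 J, x l j ^ ex J c l j = ∏ i : Λ × Fin J, x i.1 (i.2 + 1) ^ c i := by
  rw [Fintype.prod_prod_type]
  refine prod_congr rfl fun l _ => ?_
  rw [prod_Icc]
  refine prod_congr rfl fun i _ => ?_
  rw [ex_fin]

lemma sum_ex (c : Λ × Fin J → ℕ) (l : Λ) : 2 * ∑ j ∈ Icc 1 J, j * ex J c l j ≤ 2 * (J * ∑ i, c i) := by
  refine Nat.mul_le_mul_left 2 ?_
  have h1 : ∑ j ∈ Icc 1 J, j * ex J c l j ≤ J * ∑ j ∈ Icc 1 J, ex J c l j := by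
    rw [mul_sum]
    exact sum_le_sum fun j hj => Nat.mul_le_mul_right _ (mem_Icc.1 hj).2
  have h2 : ∑ j ∈ Icc 1 J, ex J c l j = ∑ i : Fin J, c (l, i) := by
    rw [sum_Icc]
    exact sum_congr rfl fun i _ => ex_fin J c l i
  have h3 : ∑ i : Fin J, c (l, i) ≤ ∑ i, c i := by
    rw [Fintype.sum_prod_type]
    exact single_le_sum (f := fun l => ∑ i : Fin J, c (l, i)) (fun _ _ => Nat.zero_le _) (mem_univ l)
  calc _ ≤ J * ∑ j ∈ Icc 1 J, ex J c l j := h1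
    _ ≤ _ := Nat.mul_le_mul_left J (h2 ▸ h3)

end exps

/-- the moments of the normal laws -/
lemma gmom {s : ℝ} (hs : s ^ 2 = 1) (j a : ℕ) : ∫ x, x ^ a ∂(gaussianReal (s * eta j) (j : ℝ≥0)) = s ^ a * mj j a := by
  have h1 : gaussianReal (s * eta j) (j : ℝ≥0) = (gaussianReal 0 (j : ℝ≥0)).map (· + s * eta j) := by
    rw [gaussianReal_map_add_const, zero_add]
  rw [h1, integral_map (by fun_prop) (by fun_prop)]
  have h2 : ∀ x : ℝ, (x + s * eta j) ^ a = ∑ i ∈ range (a + 1), (s * eta j) ^ (a - i) * (a.choose i : ℝ) * x ^ i := by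
    intro x
    rw [add_pow]
    exact sum_congr rfl fun i _ => by ring
  simp only [h2]
  rw [integral_finsetSum _ fun i _ => (int_pow_gau _ _ _).const_mul _]
  unfold mj
  rw [mul_sum]
  refine sum_congr rfl fun i hi => ?_
  have hia : i ≤ a := by have := mem_range.1 hi; omega
  rw [integral_const_mul, Pool.Agent.R320.KL.gm]
  unfold Pool.Agent.R320.KL.MM Q282MM.gm
  split_ifs with h
  · obtain ⟨q, hq⟩ := h
    have hq' : i = 2 * q := by omega
    have h3 : s ^ a = s ^ (a - i) := by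
      have h4 : a = (a - i) + 2 * q := by omega
      conv_lhs => rw [h4]
      rw [pow_add, pow_mul, hs, one_pow, mul_one]
    have h5 : Real.sqrt j ^ i = (j : ℝ) ^ (i / 2) := by
      rw [hq', pow_mul, Real.sq_sqrt (Nat.cast_nonneg j)]
      congr 1
      omega
    rw [h3, h5, mul_pow]
    push_cast
    ring
  · simp

end Run7.h209.ST
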