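import Pool.Agent.Run7.h209.ST.Law
import Pool.Agent.Q282.MM.Main

/-!
# The laws of the traces of Frobenius for almost all sections and hypersurfaces of large degree: main theorems
-/

set_option autoImplicit false

namespace Run7.h209.ST

open MeasureTheory ProbabilityTheory Finset Filter
open Pool.Agent.Y722.HS (Mon form)
open Run7.h3.ST (mm mj eta)
open scoped Topology NNReal ENNReal

section most

variable {κ : Type} [Fintype κ] [DecidableEq κ]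

lemma ncard_box (N : κ → ℤ) (L : κ → ℕ) (P : (κ → ℤ) → Prop) [DecidablePred P] :
    ({t ∈ box N L | P t} : Set (κ → ℤ)).ncard = ((box N L).filter P).card := by
  rw [← Set.ncard_coe_finset]
  congr 1
  ext t
  simp

lemma box_card (N : κ → ℤ) (L : κ → ℕ) : ((box N L).card : ℝ) = ∏ i, (L i : ℝ) := by
  unfold box
  rw [Fintype.card_piFinset]
  push_cast
  refine prod_congr rfl fun i _ => ?_
  rw [Int.card_Ico]
  simp

lemma most_and {ι : Type} (I : Finset ι) (C : ι → ℝ) (A : ι → ℕ → ℝ → (κ → ℤ) → Prop) (h : ∀ i ∈ I, Most (C i) (A i)) :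
    Most (∑ i ∈ I, C i) fun X₀ T t => ∀ i ∈ I, A i X₀ T t := by
  classical
  intro N L T hT X₀ hX₀
  beta_reduce
  rw [ncard_box]
  have h1 : (box N L).filter (fun t => ¬ ∀ i ∈ I, A i X₀ T t) ⊆ I.biUnion fun i => (box N L).filter fun t => ¬ A i X₀ T t := by
    intro t ht
    rw [mem_filter] at ht
    obtain ⟨ht, hn⟩ := ht
    push Not at hn
    obtain ⟨i, hi, hn⟩ := hn
    exact mem_biUnion.2 ⟨i, hi, mem_filter.2 ⟨ht, hn⟩⟩
  have h2 : (((box N L).filter fun t => ¬ ∀ i ∈ I, A i X₀ T t).card : ℝ) ≤ ∑ i ∈ I, (((box N L).filter fun t => ¬ A i X₀ T t).card : ℝ) := by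
    exact_mod_cast (card_le_card h1).trans card_biUnion_le
  refine h2.trans ?_
  rw [sum_mul, sum_mul]
  refine sum_le_sum fun i hi => ?_
  have h3 := h i hi N L T hT X₀ hX₀
  rwa [ncard_box] at h3

lemma most_from {C : ℝ} (hC : 0 ≤ C) {A B : ℕ → ℝ → (κ → ℤ) → Prop} (h : Most C A) (Y₀ : ℕ)
    (hAB : ∀ X₀ T t, Y₀ ≤ X₀ → A X₀ T t → B X₀ T t) : Most (C + (Y₀ : ℝ) ^ ((1 : ℝ) / 4)) B := by
  classical
  intro N L T hT X₀ hX₀
  have hX : (0 : ℝ) < X₀ := by exact_mod_cast hX₀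
  have hP : (0 : ℝ) ≤ ∏ i, (L i : ℝ) := prod_nonneg fun i _ => Nat.cast_nonneg _
  have hq : 0 < (X₀ : ℝ) ^ (-((1 : ℝ) / 4)) := Real.rpow_pos_of_pos hX _
  have hY : (0 : ℝ) ≤ (Y₀ : ℝ) ^ ((1 : ℝ) / 4) := Real.rpow_nonneg (Nat.cast_nonneg _) _
  rcases lt_or_ge X₀ Y₀ with hlt | hge
  · rw [ncard_box]
    have h1 : (((box N L).filter fun t => ¬ B X₀ T t).card : ℝ) ≤ ∏ i, (L i : ℝ) := by
      rw [← box_card N L]
      exact_mod_cast card_filter_le _ _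
    refine h1.trans ?_
    have h2 : 1 ≤ (Y₀ : ℝ) ^ ((1 : ℝ) / 4) * (X₀ : ℝ) ^ (-((1 : ℝ) / 4)) := by
      rw [Real.rpow_neg hX.le, ← div_eq_mul_inv, one_le_div (Real.rpow_pos_of_pos hX _)]
      exact Real.rpow_le_rpow hX.le (by exact_mod_cast hlt.le) (by norm_num)
    have h3 : 1 ≤ (C + (Y₀ : ℝ) ^ ((1 : ℝ) / 4)) * (X₀ : ℝ) ^ (-((1 : ℝ) / 4)) := by nlinarith
    calc ∏ i, (L i : ℝ) = 1 * ∏ i, (L i : ℝ) := (one_mul _).symm
      _ ≤ _ := mul_le_mul_of_nonneg_right h3 hP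
  · have h1 := h N L T hT X₀ hX₀
    rw [ncard_box] at h1 ⊢
    have h2 : (((box N L).filter fun t => ¬ B X₀ T t).card : ℝ) ≤ (((box N L).filter fun t => ¬ A X₀ T t).card : ℝ) := by
      exact_mod_cast card_le_card fun t ht => by
        rw [mem_filter] at ht ⊢
        exact ⟨ht.1, fun h' => ht.2 (hAB X₀ T t hge h')⟩
    refine h2.trans (h1.trans ?_)
    refine mul_le_mul_of_nonneg_right (mul_le_mul_of_nonneg_right (by linarith) hq.le) hP

end most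

section law

variable {Λ : Type} [Fintype Λ] (J : ℕ)

/-- the means -/
noncomputable def cc (s : Λ → ℝ) (i : Λ × Fin J) : ℝ := s i.1 * eta (i.2 + 1)

/-- the variances -/
noncomputable def vv (i : Λ × Fin J) : ℝ≥0 := ((i.2 + 1 : ℕ) : ℝ≥0)

lemma M_eq {s : Λ → ℝ} (hs : ∀ l, s l ^ 2 = 1) (c : Λ × Fin J → ℕ) : (nlaw (cc J s) (vv J)).M c = mm s (ex J c) J := by
  show ∏ i, ∫ x, x ^ c i ∂(gaussianReal (cc J s i) (vv J i)) = _
  unfold mm
  rw [Fintype.prod_prod_type]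
  refine prod_congr rfl fun l _ => ?_
  rw [prod_Icc J (fun j => s l ^ ex J c l j * mj j (ex J c l j))]
  refine prod_congr rfl fun i _ => ?_
  rw [ex_fin]
  exact gmom (hs l) (i + 1) (c (l, i))

/-- the mean of a typical sequence -/
lemma typ_mean {m : ℝ} {X₀ : ℕ} {T : ℝ} {z : ℕ → ℝ} (h : Typ m X₀ T z) {K : ℝ} (hK : 0 < K) {Y : ℕ} (hY : 1 ≤ Y) (hXY : X₀ ≤ Y)
    (hYT : 8 * (Y : ℝ) ^ 3 ≤ T) (hpi : 4 * K * (Y : ℝ) ^ ((3 : ℝ) / 4) ≤ (pr Y).card) :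
    |(∑ p ∈ pr Y, z p) / (pr Y).card - m| ≤ 1 / K := by
  have hY0 : (0 : ℝ) < Y := by exact_mod_cast hY
  have hq : 0 < (Y : ℝ) ^ ((3 : ℝ) / 4) := Real.rpow_pos_of_pos hY0 _
  have hc : (0 : ℝ) < (pr Y).card := lt_of_lt_of_le (by positivity) hpi
  have h1 := h Y hXY hYT
  have h2 : (∑ p ∈ pr Y, z p) / (pr Y).card - m = (∑ p ∈ pr Y, (z p - m)) / (pr Y).card := by
    rw [sum_sub_distrib, sum_const, nsmul_eq_mul, sub_div, mul_div_assoc, mul_comm ((pr Y).card : ℝ), div_mul_cancel₀ _ hc.ne']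
  rw [h2, abs_div, abs_of_pos hc, div_le_div_iff₀ hc hK, one_mul]
  have h3 : |∑ p ∈ pr Y, (z p - m)| ≤ 4 * (Y : ℝ) ^ ((3 : ℝ) / 4) := h1
  nlinarith

end law

section main

variable {Λ : Type} [Fintype Λ] [DecidableEq Λ] (J : ℕ)

open scoped Classical in
/-- **The joint law of the traces of the powers of Frobenius.** -/
theorem law_gen {s : Λ → ℝ} (hs : ∀ l, s l ^ 2 = 1) {A : Set (Λ × Fin J → ℝ)} (hAm : MeasurableSet A)
    (hA : nrm (cc J s) (vv J) (frontier A) = 0) {η : ℝ} (hη : 0 < η) :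
    ∃ δ₀ : ℕ, ∀ (n D δ : Λ → ℕ) (S : ∀ l, Set (MvPolynomial (Fin (n l + 1)) ℤ)) (C₀ : ℝ) (b : Λ → ℕ → ℕ → ℝ), (∀ l, 2 ≤ D l) →
      (∀ l, (-1 : ℝ) ^ (D l - 1) = s l) → (∀ l, δ₀ ≤ δ l) → (∀ l, ∀ G ∈ S l, ∃ d, G.IsHomogeneous d) →
      (∀ l, ∀ p : ℕ, p.Prime → ∀ j ∈ Icc 1 J, |(points p j (S l) : ℝ) - (p : ℝ) ^ (j * D l)| ≤ C₀ * ((p : ℝ) ^ (j * D l) / Real.sqrt p)) →
      (∀ l, ∀ p : ℕ, p.Prime → ∀ j ∈ Icc 1 J, |(points p j (S l) : ℝ) / (p : ℝ) ^ j - b l p j| ≤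
        C₀ * (Real.sqrt p ^ (j * (D l - 1)) / Real.sqrt p)) →
      ∃ C : ℝ, 0 ≤ C ∧ Most C fun X₀ T (t : (Σ l, Mon (n l) (δ l)) → ℤ) => ∀ Y : ℕ, X₀ ≤ Y → 8 * (Y : ℝ) ^ 3 ≤ T →
        |(({p ∈ pr Y | (fun i : Λ × Fin J => trace (S i.1) (form fun m => t ⟨i.1, m⟩) (D i.1) (b i.1 p (i.2 + 1)) p (i.2 + 1)) ∈ A}.card : ℕ) : ℝ) /
          (pr Y).card - (nrm (cc J s) (vv J) A).toReal| ≤ η := by
  obtain ⟨D₀, hD₀⟩ := (nlaw (cc J s) (vv J)).near hAm ((frontier_E (cc J s) (vv J) A).trans hA) hη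
  refine ⟨2 * (J * D₀), fun n D δ S C₀ b hD hDs hδ hS hW hb => ?_⟩
  obtain ⟨I, hI⟩ : ∃ I : Finset (Λ × Fin J → ℕ), I = (Fintype.piFinset fun _ => range (D₀ + 1)).filter fun c => ∑ i, c i ≤ D₀ := ⟨_, rfl⟩
  have hmem : ∀ c : Λ × Fin J → ℕ, ∑ i, c i ≤ D₀ → c ∈ I := by
    intro c hc
    rw [hI, mem_filter, Fintype.mem_piFinset]
    refine ⟨fun i => mem_range.2 ?_, hc⟩
    have := single_le_sum (f := c) (fun _ _ => Nat.zero_le _) (mem_univ i)
    omega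
  have hle : ∀ c ∈ I, ∑ i, c i ≤ D₀ := fun c hc => by
    rw [hI, mem_filter] at hc
    exact hc.2
  have hmom : ∀ c : Λ × Fin J → ℕ, ∃ C : ℝ, 0 ≤ C ∧ (c ∈ I → Most C fun X₀ T (t : (Σ l, Mon (n l) (δ l)) → ℤ) =>
      Typ ((nlaw (cc J s) (vv J)).M c) X₀ T fun p =>
        ∏ i : Λ × Fin J, trace (S i.1) (form fun m => t ⟨i.1, m⟩) (D i.1) (b i.1 p (i.2 + 1)) p (i.2 + 1) ^ c i) := by
    intro c
    by_cases hc : c ∈ I
    · obtain ⟨C, hC, h1⟩ := moments n D δ S J (ex J c) C₀ b hD hS hW hb (fun l => by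
        refine (sum_ex J c l).trans ?_
        have h2 := Nat.mul_le_mul_left 2 (Nat.mul_le_mul_left J (hle c hc))
        have := hδ l
        omega)
      refine ⟨C, hC, fun _ => ?_⟩
      have h2 : (fun l => (-1 : ℝ) ^ (D l - 1)) = s := funext hDs
      rw [h2] at h1
      rw [M_eq J hs c]
      intro N L T hT X₀ hX₀
      refine le_trans (le_of_eq ?_) (h1 N L T hT X₀ hX₀)
      congr 3
      ext t
      simp only [prod_ex J c (fun l j => trace (S l) (form fun m => t ⟨l, m⟩) (D l) (b l _ j) _ j)]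
    · exact ⟨0, le_rfl, fun h => absurd h hc⟩
  choose Cf hCf0 hCf using hmom
  have hall := most_and I Cf (fun c X₀ T (t : (Σ l, Mon (n l) (δ l)) → ℤ) => Typ ((nlaw (cc J s) (vv J)).M c) X₀ T fun p =>
        ∏ i : Λ × Fin J, trace (S i.1) (form fun m => t ⟨i.1, m⟩) (D i.1) (b i.1 p (i.2 + 1)) p (i.2 + 1) ^ c i) fun c hc => hCf c hc
  obtain ⟨Y₀, hY₀2, hY₀⟩ := pi_low (4 * ((D₀ : ℝ) + 1))
  refine ⟨∑ c ∈ I, Cf c + (Y₀ : ℝ) ^ ((1 : ℝ) / 4), add_nonneg (sum_nonneg fun c _ => hCf0 c) (Real.rpow_nonneg (Nat.cast_nonneg _) _),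
    most_from (sum_nonneg fun c _ => hCf0 c) hall Y₀ fun X₀ T t hX hA' Y hXY hYT => ?_⟩
  have hY0 : Y₀ ≤ Y := hX.trans hXY
  have hpi := hY₀ Y hY0
  have hYpos : (0 : ℝ) < Y := by exact_mod_cast (by omega : 0 < Y)
  have hne : (pr Y).Nonempty := by
    rw [← card_pos]
    have h1 : (0 : ℝ) < (pr Y).card := lt_of_lt_of_le (mul_pos (by positivity) (Real.rpow_pos_of_pos hYpos _)) hpi
    exact_mod_cast h1
  have h1 := hD₀ (pr Y) (fun p (i : Λ × Fin J) => trace (S i.1) (form fun m => t ⟨i.1, m⟩) (D i.1) (b i.1 p (i.2 + 1)) p (i.2 + 1)) hne (by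
    intro c hc
    exact typ_mean (hA' c (hmem c hc)) (by positivity) (by omega) hXY hYT hpi)
  have h2 : ((nlaw (cc J s) (vv J)).ν : Measure (EuclideanSpace ℝ (Λ × Fin J))) ((WithLp.ofLp : EuclideanSpace ℝ (Λ × Fin J) → Λ × Fin J → ℝ) ⁻¹' A) =
      nrm (cc J s) (vv J) A := meas_E (cc J s) (vv J) hAm
  rw [h2] at h1
  exact h1

open scoped Classical in
/-- **The law of the trace of Frobenius with a rate**, for each member of the family. -/
theorem rate (m : Λ → ℕ) (hm : ∀ l, 1 ≤ m l) (n D δ : Λ → ℕ) (S : ∀ l, Set (MvPolynomial (Fin (n l + 1)) ℤ)) (C₀ : ℝ) (b : Λ → ℕ → ℝ)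
    (hD : ∀ l, 2 ≤ D l) (hδ : ∀ l, 4 * m l ≤ δ l + 1) (hS : ∀ l, ∀ G ∈ S l, ∃ d, G.IsHomogeneous d)
    (hW : ∀ l, ∀ p : ℕ, p.Prime → |(points p 1 (S l) : ℝ) - (p : ℝ) ^ D l| ≤ C₀ * ((p : ℝ) ^ D l / Real.sqrt p))
    (hb : ∀ l, ∀ p : ℕ, p.Prime → |(points p 1 (S l) : ℝ) / p - b l p| ≤ C₀ * (Real.sqrt p ^ (D l - 1) / Real.sqrt p)) :
    ∃ C : ℝ, 0 ≤ C ∧ Most C fun X₀ T (t : (Σ l, Mon (n l) (δ l)) → ℤ) => ∀ Y : ℕ, X₀ ≤ Y → 8 * (Y : ℝ) ^ 3 ≤ T → ∀ l, ∀ x : ℝ,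
        |(({p ∈ pr Y | trace (S l) (form fun m => t ⟨l, m⟩) (D l) (b l p) p 1 ≤ x}.card : ℕ) : ℝ) / (pr Y).card -
          (gaussianReal 0 1).real (Set.Iic x)| ≤ 5 / √(m l : ℝ) := by
  have hs : ∀ l : Λ, ((-1 : ℝ) ^ (D l - 1)) ^ 2 = 1 := fun l => by rw [← pow_mul, mul_comm, pow_mul, neg_one_sq, one_pow]
  have hgm : ∀ k : ℕ, ∫ x, x ^ k ∂(gaussianReal 0 1) = (Q282MM.gm k : ℝ) := by
    intro k
    rw [Pool.Agent.R320.KL.gm]
    unfold Pool.Agent.R320.KL.MM Q282MM.gm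
    split_ifs <;> simp
  -- one member, one exponent
  have hmom : ∀ q : Λ × ℕ, ∃ C : ℝ, 0 ≤ C ∧ (q.2 ≤ 2 * m q.1 → Most C fun X₀ T (t : (Σ l, Mon (n l) (δ l)) → ℤ) =>
      Typ (Q282MM.gm q.2 : ℝ) X₀ T fun p => trace (S q.1) (form fun m => t ⟨q.1, m⟩) (D q.1) (b q.1 p) p 1 ^ q.2) := by
    rintro ⟨l, k⟩
    by_cases hk : k ≤ 2 * m l
    · obtain ⟨c, hc⟩ : ∃ c : Λ × Fin 1 → ℕ, c = fun i => if i.1 = l then k else 0 := ⟨_, rfl⟩
      obtain ⟨C, hC, h1⟩ := moments n D δ S 1 (ex 1 c) C₀ (fun l p _ => b l p) hD hS (fun l p hp j hj => by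
          have hj1 : j = 1 := by have := mem_Icc.1 hj; omega
          subst hj1
          simpa using hW l p hp) (fun l p hp j hj => by
          have hj1 : j = 1 := by have := mem_Icc.1 hj; omega
          subst hj1
          simpa using hb l p hp) (fun l' => by
        have h3 : ∑ j ∈ Icc 1 1, j * ex 1 c l' j = c (l', 0) := by
          rw [Icc_self, sum_singleton, one_mul]
          exact ex_fin 1 c l' 0
        rw [h3, hc]
        simp only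
        split_ifs with h
        · subst h
          have := hδ l'
          omega
        · omega)
      refine ⟨C, hC, fun _ => ?_⟩
      rw [← M_eq 1 hs c] at h1
      have h4 : (nlaw (cc 1 fun l => (-1 : ℝ) ^ (D l - 1)) (vv 1)).M c = (Q282MM.gm k : ℝ) := by
        show ∏ i, ∫ x, x ^ c i ∂(gaussianReal (cc 1 _ i) (vv 1 i)) = _
        rw [Fintype.prod_eq_single (l, (0 : Fin 1))]
        · rw [hc]
          simp only [if_true]
          rw [← hgm k]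
          have e1 : cc 1 (fun l => (-1 : ℝ) ^ (D l - 1)) (l, (0 : Fin 1)) = 0 := by
            unfold cc eta
            simp
          have e2 : vv (Λ := Λ) 1 (l, (0 : Fin 1)) = 1 := by
            unfold vv
            simp
          rw [e1, e2]
        · rintro ⟨l', i⟩ hne
          have hi : i = 0 := Subsingleton.elim _ _
          subst hi
          have hll : l' ≠ l := fun h => hne (by rw [h])
          rw [hc]
          simp [hll]
      rw [h4] at h1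
      intro N L T hT X₀ hX₀
      refine le_trans (le_of_eq ?_) (h1 N L T hT X₀ hX₀)
      congr 3
      ext t
      have h5 : ∀ p, ∏ l', ∏ j ∈ Icc 1 1, trace (S l') (form fun m => t ⟨l', m⟩) (D l') (b l' p) p j ^ ex 1 c l' j =
          trace (S l) (form fun m => t ⟨l, m⟩) (D l) (b l p) p 1 ^ k := by
        intro p
        rw [prod_ex 1 c (fun l' j => trace (S l') (form fun m => t ⟨l', m⟩) (D l') (b l' p) p j), Fintype.prod_eq_single (l, (0 : Fin 1))]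
        · rw [hc]
          simp
        · rintro ⟨l', i⟩ hne
          have hi : i = 0 := Subsingleton.elim _ _
          subst hi
          have hll : l' ≠ l := fun h => hne (by rw [h])
          rw [hc]
          simp [hll]
      simp only [h5]
    · exact ⟨0, le_rfl, fun h => absurd h hk⟩
  choose Cf hCf0 hCf using hmom
  have hE := fun l => Q282MM.emp Q282MM.fin_true (m l) (hm l)
  choose E hE0 hE1 _ using hE
  obtain ⟨I, hI⟩ : ∃ I : Finset (Λ × ℕ), I = (univ : Finset Λ).biUnion fun l => (range (2 * m l + 1)).image fun k => (l, k) := ⟨_, rfl⟩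
  have hmem : ∀ l k, k ≤ 2 * m l → (l, k) ∈ I := by
    intro l k hk
    rw [hI, mem_biUnion]
    exact ⟨l, mem_univ _, mem_image.2 ⟨k, mem_range.2 (by omega), rfl⟩⟩
  have hle : ∀ q ∈ I, q.2 ≤ 2 * m q.1 := by
    intro q hq
    rw [hI, mem_biUnion] at hq
    obtain ⟨l, _, hq⟩ := hq
    obtain ⟨k, hk, rfl⟩ := mem_image.1 hq
    have := mem_range.1 hk
    simp only
    omega
  have hall := most_and I Cf (fun q X₀ T (t : (Σ l, Mon (n l) (δ l)) → ℤ) => Typ (Q282MM.gm q.2 : ℝ) X₀ T fun p =>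
        trace (S q.1) (form fun m => t ⟨q.1, m⟩) (D q.1) (b q.1 p) p 1 ^ q.2) fun q hq => hCf q (hle q hq)
  obtain ⟨K, hK⟩ : ∃ K : ℝ, K = 1 + ∑ l, E l * √(m l : ℝ) := ⟨_, rfl⟩
  have hK1 : 1 ≤ K := by
    rw [hK]
    have : 0 ≤ ∑ l, E l * √(m l : ℝ) := sum_nonneg fun l _ => mul_nonneg (hE0 l) (Real.sqrt_nonneg _)
    linarith
  obtain ⟨Y₀, hY₀2, hY₀⟩ := pi_low (4 * K)
  refine ⟨∑ q ∈ I, Cf q + (Y₀ : ℝ) ^ ((1 : ℝ) / 4), add_nonneg (sum_nonneg fun c _ => hCf0 c) (Real.rpow_nonneg (Nat.cast_nonneg _) _),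
    most_from (sum_nonneg fun c _ => hCf0 c) hall Y₀ fun X₀ T t hX hA' Y hXY hYT l x => ?_⟩
  have hY0 : Y₀ ≤ Y := hX.trans hXY
  have hpi := hY₀ Y hY0
  have hYpos : (0 : ℝ) < Y := by exact_mod_cast (by omega : 0 < Y)
  have hne : (pr Y).Nonempty := by
    rw [← card_pos]
    have h1 : (0 : ℝ) < (pr Y).card := lt_of_lt_of_le (mul_pos (by linarith) (Real.rpow_pos_of_pos hYpos _)) hpi
    exact_mod_cast h1
  have h1 := hE1 l ℕ (pr Y) (fun p => trace (S l) (form fun m => t ⟨l, m⟩) (D l) (b l p) p 1) (1 / K) hne (by positivity) (fun k hk => by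
    exact typ_mean (hA' (l, k) (hmem l k hk)) (by linarith) (by omega) hXY hYT hpi) x
  have hsm : 0 < √(m l : ℝ) := Real.sqrt_pos.2 (by exact_mod_cast hm l)
  have h2 : E l * (1 / K) ≤ 1 / √(m l : ℝ) := by
    rw [mul_one_div, div_le_div_iff₀ (by linarith) hsm, one_mul, hK]
    have := single_le_sum (f := fun l => E l * √(m l : ℝ)) (fun l _ => mul_nonneg (hE0 l) (Real.sqrt_nonneg _)) (mem_univ l)
    linarith
  have h3 : (4 : ℝ) / √(m l : ℝ) + 1 / √(m l : ℝ) = 5 / √(m l : ℝ) := by rw [← add_div]; norm_num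
  refine le_trans ?_ (le_trans (add_le_add_right h2 (4 / √(m l : ℝ))) h3.le)
  convert! h1 using 4

end main

end Run7.h209.ST
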