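import Pool.Agent.Run7.h209.ST.Main
import Pool.Agent.H988R2.Gauss

/-!
# Hypersurfaces and curves on surfaces: the hypotheses of the main theorems
-/

set_option autoImplicit false

namespace Run7.h209.ST

open MeasureTheory ProbabilityTheory Finset
open Pool.Agent.Y722.HS (Mon form)
open Run7.h3.ST

lemma points_empty {n : ℕ} (p : ℕ) [hp : Fact p.Prime] {j : ℕ} (hj : 1 ≤ j) :
    (points p j (∅ : Set (MvPolynomial (Fin (n + 1)) ℤ)) : ℝ) = ∑ i ∈ range (n + 1), ((p : ℝ) ^ j) ^ i := by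
  rw [points_eq (fun G hG => absurd hG (Set.notMem_empty G)) p hj]
  have h1 : VW (WS (n := n) ∅ p) j = VV p n j := by
    classical
    unfold VW
    refine filter_true_of_mem fun v _ => ?_
    intro G hG
    exact absurd hG (Set.notMem_empty G)
  rw [h1, card_VV hj]
  push_cast
  rfl

lemma sqrt_pow_sq (p j k : ℕ) : (Real.sqrt p ^ (j * k)) ^ 2 = ((p : ℝ) ^ j) ^ k := by
  rw [← pow_mul, mul_comm (j * k) 2, pow_mul, Real.sq_sqrt (Nat.cast_nonneg p), pow_mul]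

/-- the projective space -/
lemma hW_proj {n : ℕ} (hn : 1 ≤ n) {p : ℕ} (hp : p.Prime) {j : ℕ} (hj : 1 ≤ j) {C₀ : ℝ} (hC : (n : ℝ) ≤ C₀) :
    |(points p j (∅ : Set (MvPolynomial (Fin (n + 1)) ℤ)) : ℝ) - (p : ℝ) ^ (j * n)| ≤ C₀ * ((p : ℝ) ^ (j * n) / Real.sqrt p) := by
  haveI : Fact p.Prime := ⟨hp⟩
  have hp1 : (1 : ℝ) ≤ p := by exact_mod_cast hp.one_lt.le
  have hpj : (1 : ℝ) ≤ (p : ℝ) ^ j := one_le_pow₀ hp1
  have hs1 : 1 ≤ Real.sqrt p := Real.one_le_sqrt.2 hp1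
  have hs2 : Real.sqrt p ≤ (p : ℝ) ^ j := by
    calc Real.sqrt p ≤ Real.sqrt p ^ 2 := le_self_pow₀ hs1 (by norm_num)
      _ = p := Real.sq_sqrt (by linarith)
      _ ≤ (p : ℝ) ^ j := le_self_pow₀ hp1 (by omega)
  rw [points_empty p hj, sum_range_succ, ← pow_mul, add_sub_cancel_right, abs_of_nonneg (by positivity)]
  have h1 : ∑ i ∈ range n, ((p : ℝ) ^ j) ^ i ≤ n * ((p : ℝ) ^ j) ^ (n - 1) := by
    refine (sum_le_card_nsmul _ _ (((p : ℝ) ^ j) ^ (n - 1)) fun i hi => ?_).trans (le_of_eq ?_)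
    · exact pow_le_pow_right₀ hpj (by have := mem_range.1 hi; omega)
    · rw [card_range, nsmul_eq_mul]
  have h2 : ((p : ℝ) ^ j) ^ (n - 1) ≤ (p : ℝ) ^ (j * n) / Real.sqrt p := by
    rw [le_div_iff₀ (by linarith), pow_mul]
    calc ((p : ℝ) ^ j) ^ (n - 1) * Real.sqrt p ≤ ((p : ℝ) ^ j) ^ (n - 1) * (p : ℝ) ^ j := mul_le_mul_of_nonneg_left hs2 (by positivity)
      _ = ((p : ℝ) ^ j) ^ n := by rw [← pow_succ]; congr 1; omega
  calc ∑ i ∈ range n, ((p : ℝ) ^ j) ^ i ≤ n * ((p : ℝ) ^ j) ^ (n - 1) := h1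
    _ ≤ C₀ * ((p : ℝ) ^ (j * n) / Real.sqrt p) := mul_le_mul hC h2 (by positivity) (le_trans (Nat.cast_nonneg n) hC)

lemma hb_proj {n : ℕ} (hn : 2 ≤ n) {p : ℕ} (hp : p.Prime) {j : ℕ} (hj : 1 ≤ j) {C₀ : ℝ} (hC : 1 ≤ C₀) :
    |(points p j (∅ : Set (MvPolynomial (Fin (n + 1)) ℤ)) : ℝ) / (p : ℝ) ^ j - ∑ i ∈ range n, ((p : ℝ) ^ j) ^ i| ≤
      C₀ * (Real.sqrt p ^ (j * (n - 1)) / Real.sqrt p) := by
  haveI : Fact p.Prime := ⟨hp⟩
  have hp1 : (1 : ℝ) ≤ p := by exact_mod_cast hp.one_lt.le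
  have hpj : (1 : ℝ) ≤ (p : ℝ) ^ j := one_le_pow₀ hp1
  have hs1 : 1 ≤ Real.sqrt p := Real.one_le_sqrt.2 hp1
  rw [points_empty p hj]
  have h1 : (∑ i ∈ range (n + 1), ((p : ℝ) ^ j) ^ i) / (p : ℝ) ^ j = ∑ i ∈ range n, ((p : ℝ) ^ j) ^ i + 1 / (p : ℝ) ^ j := by
    rw [sum_range_succ', add_div, pow_zero, sum_div]
    congr 1
    refine sum_congr rfl fun i _ => ?_
    rw [pow_succ, mul_div_assoc, div_self (by positivity), mul_one]
  rw [h1, add_sub_cancel_left, abs_of_nonneg (by positivity)]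
  have h2 : 1 / (p : ℝ) ^ j ≤ 1 := by rw [div_le_one (by positivity)]; exact hpj
  have h3 : 1 ≤ Real.sqrt p ^ (j * (n - 1)) / Real.sqrt p := by
    rw [one_le_div (by linarith)]
    refine le_self_pow₀ hs1 ?_
    have : 1 ≤ j * (n - 1) := Nat.mul_pos hj (by omega)
    omega
  nlinarith

/-- surfaces with a number of points like that of a surface with `b_1 = 0` -/
lemma hW_surf {P q : ℝ} {p j : ℕ} (hp : p.Prime) (hj : 1 ≤ j) (hq : q = (p : ℝ) ^ j) {C₀ : ℝ} (hC : 0 ≤ C₀) (h : |P - q ^ 2| ≤ C₀ * q) :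
    |P - (p : ℝ) ^ (j * 2)| ≤ (C₀ + 1) * ((p : ℝ) ^ (j * 2) / Real.sqrt p) ∧
    |P / (p : ℝ) ^ j - ((p : ℝ) ^ j + 1)| ≤ (C₀ + 1) * (Real.sqrt p ^ (j * (2 - 1)) / Real.sqrt p) := by
  have hp1 : (1 : ℝ) ≤ p := by exact_mod_cast hp.one_lt.le
  have hpj : (1 : ℝ) ≤ (p : ℝ) ^ j := one_le_pow₀ hp1
  have hs1 : 1 ≤ Real.sqrt p := Real.one_le_sqrt.2 hp1
  have hs2 : Real.sqrt p ≤ (p : ℝ) ^ j := by
    calc Real.sqrt p ≤ Real.sqrt p ^ 2 := le_self_pow₀ hs1 (by norm_num)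
      _ = p := Real.sq_sqrt (by linarith)
      _ ≤ (p : ℝ) ^ j := le_self_pow₀ hp1 (by omega)
  rw [pow_mul, ← hq] at *
  have hq0 : 0 < q := by linarith
  constructor
  · refine h.trans ?_
    have h1 : q ≤ q ^ 2 / Real.sqrt p := by
      rw [le_div_iff₀ (by linarith)]
      nlinarith
    nlinarith
  · have h1 : P / q - (q + 1) = (P - q ^ 2) / q - 1 := by
      field_simp
      ring
    rw [h1]
    have h2 : |(P - q ^ 2) / q| ≤ C₀ := by
      rw [abs_div, abs_of_pos hq0, div_le_iff₀ hq0]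
      exact h
    have h3 : |(P - q ^ 2) / q - 1| ≤ C₀ + 1 := by
      refine (abs_sub _ _).trans ?_
      rw [abs_one]
      linarith
    have h4 : 1 ≤ Real.sqrt p ^ (j * (2 - 1)) / Real.sqrt p := by
      rw [one_le_div (by linarith)]
      exact le_self_pow₀ hs1 (by omega)
    nlinarith

/-- the normal laws are absolutely continuous -/
lemma nrm_ac {κ : Type} [Fintype κ] (c : κ → ℝ) (v : κ → NNReal) (hv : ∀ i, v i ≠ 0) : nrm c v ≪ (volume : Measure (κ → ℝ)) := by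
  have h1 : ∀ i, gaussianReal (c i) (v i) = (volume : Measure ℝ).withDensity (gaussianPDF (c i) (v i)) := fun i =>
    gaussianReal_of_var_ne_zero _ (hv i)
  have h2 : nrm c v = Measure.pi fun i => (volume : Measure ℝ).withDensity (gaussianPDF (c i) (v i)) := by
    unfold nrm
    congr 1
    funext i
    exact h1 i
  rw [h2, Pool.Agent.H988R2.pi_withDensity_real (fun i => gaussianPDF (c i) (v i)) (fun i => measurable_gaussianPDF _ _) (fun i => by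
    rw [← h1 i]
    infer_instance)]
  exact withDensity_absolutelyContinuous _ _

end Run7.h209.ST
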